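import Pool.Agent.COS.Stmts

/-!
# Squad COS (MP_0fc649_lc): row HOM
-/

set_option autoImplicit false

namespace Pool.Agent.COS.H75

open Pool.Agent.PAR

variable {n : ℕ}

abbrev Mt (n : ℕ) := Matrix (Fin n) (Fin n) (ZMod 2)

/-- the entry of a product with an upper unitriangular left factor: if the entries of `m` in the
row `i` strictly between `i` and `j` vanish -/
theorem mul_entry {m u : Mt n} (hm : IsUni m) (hu : IsUni u) {i j : Fin n}
    (h : ∀ l, i < l → l < j → m i l = 0) (hij : i < j) :
    (m * u) i j = u i j + m i j := by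
  rw [Matrix.mul_apply]
  have hne : i ≠ j := hij.ne
  rw [← Finset.sum_subset (Finset.subset_univ {i, j})]
  · rw [Finset.sum_pair hne, hm.1 i, hu.1 j]
    ring
  · intro l _ hl
    simp only [Finset.mem_insert, Finset.mem_singleton, not_or] at hl
    rcases lt_trichotomy l i with h1 | h1 | h1
    · rw [hm.2 i l h1, zero_mul]
    · exact absurd h1 hl.1
    · rcases lt_trichotomy l j with h2 | h2 | h2
      · rw [h l h1 h2, zero_mul]
      · exact absurd h2 hl.2
      · rw [hu.2 l j h2, mul_zero]

theorem mul_uni {a b : Mt n} (ha : IsUni a) (hb : IsUni b) : IsUni (a * b) := by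
  constructor
  · intro i
    rw [Matrix.mul_apply, Finset.sum_eq_single i]
    · rw [ha.1, hb.1, one_mul]
    · intro l _ hl
      rcases lt_or_gt_of_ne hl with h | h
      · rw [ha.2 i l h, zero_mul]
      · rw [hb.2 l i h, mul_zero]
    · intro h
      exact absurd (Finset.mem_univ _) h
  · intro i j hij
    rw [Matrix.mul_apply]
    refine Finset.sum_eq_zero fun l _ => ?_
    rcases lt_or_ge l i with h | h
    · rw [ha.2 i l h, zero_mul]
    · rw [hb.2 l j (hij.trans_le h), mul_zero]

theorem uni_one : IsUni (1 : Mt n) :=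
  ⟨fun i => Matrix.one_apply_eq i, fun i j h => Matrix.one_apply_ne h.ne'⟩

theorem uni_pow {a : Mt n} (ha : IsUni a) : ∀ k : ℕ, IsUni (a ^ k)
  | 0 => by rw [pow_zero]; exact uni_one
  | k + 1 => by rw [pow_succ]; exact mul_uni (uni_pow ha k) ha

theorem uni_inv {a : Gr n} (ha : IsUni a.1) : IsUni (a⁻¹).1 := by
  have h : a⁻¹ = a ^ (orderOf a - 1) := by
    rw [eq_comm, ← mul_eq_one_iff_eq_inv, ← pow_succ,
      Nat.sub_add_cancel (orderOf_pos a), pow_orderOf_eq_one]
  rw [h, Units.val_pow_eq_pow_val]
  exact uni_pow ha _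

/-- the entries of a matrix as a function of the position -/
theorem ent_eq_iff {a b : Mt n} (k : Fin (n * n)) :
    ent a k = ent b k ↔ a k.divNat k.modNat = b k.divNat k.modNat := by
  unfold ent
  have key : ∀ x y : ZMod 2, decide (x = 1) = decide (y = 1) ↔ x = y := by decide
  exact key _ _

/-- positions before `(i, j)` in the row-major order -/
theorem lt_iff_pos (k l : Fin (n * n)) : l < k ↔ l.divNat < k.divNat ∨
    (l.divNat = k.divNat ∧ l.modNat < k.modNat) := by
  have h1 := Nat.div_add_mod l.val n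
  have h2 := Nat.div_add_mod k.val n
  have hn : 0 < n := by
    rcases Nat.eq_zero_or_pos n with h | h
    · subst h
      exact absurd k.2 (by simp)
    · exact h
  have h3 := Nat.mod_lt l.val hn
  have h4 := Nat.mod_lt k.val hn
  simp only [Fin.lt_def, Fin.ext_iff, Fin.coe_divNat, Fin.coe_modNat]
  constructor
  · intro h
    rcases lt_trichotomy (l.val / n) (k.val / n) with h5 | h5 | h5
    · exact Or.inl h5
    · right
      refine ⟨h5, ?_⟩
      rw [h5] at h1
      omega
    · exfalso
      have := Nat.mul_le_mul_left n (Nat.succ_le_of_lt h5)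
      rw [Nat.mul_succ] at this
      omega
  · rintro (h5 | ⟨h5, h6⟩)
    · have := Nat.mul_le_mul_left n (Nat.succ_le_of_lt h5)
      rw [Nat.mul_succ] at this
      omega
    · rw [h5] at h1
      omega

theorem hom : HomStmt := by
  intro n W hW hU k hk y hy
  obtain ⟨_, ⟨u, hu, rfl⟩, _, ⟨v, hv, rfl⟩, hag, hdiff⟩ := hk
  obtain ⟨w, hw, rfl⟩ := hy
  have hwW : v * u⁻¹ * w ∈ W := hW v hv u hu w hw
  set m : Gr n := v * u⁻¹ with hm
  have hmU : IsUni m.1 := by
    rw [hm, Units.val_mul]
    exact mul_uni (hU v hv) (uni_inv (hU u hu))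
  have hvm : v.1 = m.1 * u.1 := by
    rw [← Units.val_mul, hm, inv_mul_cancel_right]
  set i := k.divNat with hi
  set j := k.modNat with hj
  -- agreement of entries before the position
  have hag' : ∀ (a b : Fin n), (a < i ∨ (a = i ∧ b < j)) → u.1 a b = v.1 a b := by
    intro a b hab
    have hn : 0 < n := a.pos
    let l : Fin (n * n) := finProdFinEquiv (a, b)
    have hl1 : l.divNat = a := by
      have := finProdFinEquiv.symm_apply_apply (a, b)
      exact congrArg Prod.fst this
    have hl2 : l.modNat = b := by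
      have := finProdFinEquiv.symm_apply_apply (a, b)
      exact congrArg Prod.snd this
    have hlt : l < k := by
      rw [lt_iff_pos, hl1, hl2]
      exact hab
    have := (ent_eq_iff l).1 (hag l hlt)
    rwa [hl1, hl2] at this
  have hdiff' : u.1 i j ≠ v.1 i j := fun h => hdiff ((ent_eq_iff k).2 h)
  -- the entries of `m`
  have hm0 : ∀ (b a : Fin n), a < b → (a < i ∨ (a = i ∧ b < j)) → m.1 a b = 0 := by
    intro b
    induction b using WellFoundedLT.induction with
    | ind b ih =>
      intro a hab hpos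
      have h1 := mul_entry hmU (hU u hu) (i := a) (j := b) (fun l h1 h2 => ih l h2 a h1 (by
        rcases hpos with h | ⟨h, h'⟩
        · exact Or.inl h
        · exact Or.inr ⟨h, h2.trans h'⟩)) hab
      rw [← hvm, hag' a b hpos] at h1
      exact (left_eq_add.1 h1)
  have hij : i < j := by
    by_contra hcon
    rcases (not_lt.1 hcon).lt_or_eq with h | h
    · exact hdiff' (by rw [(hU u hu).2 i j h, (hU v hv).2 i j h])
    · exact hdiff' (by rw [h, (hU u hu).1, (hU v hv).1])
  have hmk : m.1 i j ≠ 0 := by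
    intro h0
    have h1 := mul_entry hmU (hU u hu) (i := i) (j := j) (fun l h1 h2 => hm0 l i h1
      (Or.inr ⟨rfl, h2⟩)) hij
    rw [← hvm, h0, add_zero] at h1
    exact hdiff' h1.symm
  refine ⟨ent (m.1 * w.1), ⟨m * w, hwW, by rw [Units.val_mul]⟩, fun l hl => ?_, fun h => ?_⟩
  · rw [ent_eq_iff]
    have hpos := (lt_iff_pos k l).1 hl
    rcases lt_trichotomy l.divNat l.modNat with h | h | h
    · rw [mul_entry hmU (hU w hw) (fun l' h1 h2 => hm0 l' _ h1 (by
        rcases hpos with h | ⟨h, h'⟩
        · exact Or.inl h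
        · exact Or.inr ⟨h, h2.trans h'⟩)) h, hm0 _ _ h hpos, add_zero]
    · rw [← h, (hU w hw).1, (mul_uni hmU (hU w hw)).1]
    · rw [(hU w hw).2 _ _ h, (mul_uni hmU (hU w hw)).2 _ _ h]
  · rw [ent_eq_iff] at h
    have h1 := mul_entry hmU (hU w hw) (i := i) (j := j) (fun l' h1 h2 => hm0 l' _ h1
      (Or.inr ⟨rfl, h2⟩)) hij
    rw [h1] at h
    exact hmk (left_eq_add.1 h)

end Pool.Agent.COS.H75
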