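import Pool.Agent.Helper75_COS.Final0
import Pool.Agent.Helper75_COS.HOM
import Pool.Agent.Helper86_COS.WRD
import Pool.Agent.Helper30_COS.TIM
import Pool.Agent.Helper13_COS.TIF

/-!
# Squad COS (MP_0fc649_lc): the final theorems
-/

namespace Pool.Agent.COS.H75

theorem mai : MaiStmt := mai_of hom H86.wrd

theorem tif : TifStmt := tif_of hom H86.wrd H30.tim H13.tif

end Pool.Agent.COS.H75
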