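import Pool.Agent.Helper91_COS.GRP
import Pool.Agent.Helper21_COS.CRD
import Pool.Agent.Helper49_COS.RED
import Pool.Agent.Helper77_COS.PRS
import Pool.Agent.Helper20_COS.FRM
import Pool.Agent.Helper49_COS.SUM
import Pool.Agent.Helper50_COS.MCH
import Pool.Agent.Helper13_COS.WRA
import Pool.Agent.Helper67_COS.WRB
import Pool.Agent.Helper79_COS.MAI
import Pool.Agent.Helper49_COS.TIG

/-!
# Squad COS (MP_0fc649_lc): assembly up to HOM, WRD, TIM, TIF
-/

namespace Pool.Agent.COS.H75

/-- the main theorem from HOM and WRD -/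
theorem mai_of (hom : HomStmt) (wrd : WraStmt → WrbStmt → WrdStmt) : MaiStmt :=
  have prs : PrsStmt := H77.prs H91.grp H21.crd H49.red
  have sum : SumStmt := H49.sum prs H20.frm hom
  H79.mai sum H50.mch (wrd H13.wra H67.wrb)

/-- tensor isomorphism from HOM, WRD, TIM, TIF -/
theorem tif_of (hom : HomStmt) (wrd : WraStmt → WrbStmt → WrdStmt) (tim : TimStmt)
    (tif : MaiStmt → TigStmt → TimStmt → TifStmt) : TifStmt :=
  tif (mai_of hom wrd) H49.tig tim

end Pool.Agent.COS.H75
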