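import Pool.Agent.Helper75_COS.Final

/-!
# MP_0fc649_lc: witness sets which are cosets in matrix groups over the field with two elements

`PolyPair`, `InParityP` (file `Pool/Agent/Helper7_PAR/Defs.lean`): predicates of pairs of words
decided in polynomial time by Mathlib's Turing machines, and the class parity-P.  `matSols V d x`
(file `Pool/Agent/COS/Defs.lean`): the invertible matrices `A` of size `d |x|` over the field with
two elements such that `V` accepts `x` and the entries of `A`.  `Heap W`: `a b⁻¹ c ∈ W` for
`a, b, c ∈ W`, that is `W` is empty or a coset of a subgroup.  `TensorIso` (file
`Pool/Agent/COS/DefsT.lean`): the pairs of isomorphic `n × n × n` tensors over the field with two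
elements.

Proof of (1).  Let `U` be the group of the upper unitriangular matrices.  For a nonempty `W` closed
under `a b⁻¹ c` the number of the pairs `(s, t)` of cosets of `U` with `w s = t` for some `w ∈ W` is
congruent to the index of `U`, which is odd.  Cosets of `U` have unique column-reduced
representatives `a`, `a'`, and the set of the `u ∈ U` with `a' u a⁻¹ ∈ W` is a homogeneous set of
words: its frames (unique reduced bases for the right set of pivots, and an even number of them
for the other sets) are checked in polynomial time and are odd in number.
-/

namespace Pool.Agent.COS.H75.MatrixCosetsOld

open Pool.Agent.PAR Pool.Agent.COS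

/-- (1) If the witness sets of an NP verifier `V`, sets of invertible matrices over the field with
two elements, are closed under `a b⁻¹ c`, the language is in parity-P.  (2) Tensor isomorphism over
the field with two elements is in parity-P. -/
theorem result :
    (∀ (L : Set Word) (V : Word × Word → Bool) (d : Polynomial ℕ), PolyPair V →
      (∀ x, x ∈ L ↔ (matSols V d x).Nonempty) → (∀ x, Heap (matSols V d x)) → InParityP L) ∧
    InParityP TensorIso :=
  ⟨H75.mai, H75.tif⟩

end Pool.Agent.COS.H75.MatrixCosetsOld
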